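import Mathlib

set_option autoImplicit false

/-! MP_0b7070_lc, Q1 (answered: no). An absolutely homogeneous graph with edge-colouring whose
palette is countable has a countable vertex set or at least `2^ω` vertices. So the statement of Q1
already fails for `α = ω` in every model of ZFC in which CH fails: the statement of Q1 implies CH.

Proof. (1) There is no infinite monochromatic clique (extend a bijection of a maximal clique onto a
proper subset). (2) Choose a countable set `B` realising all types over its finite subsets and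
`x` outside of `B`. For every finite `D ⊆ B` there are `a, a' ∈ B` with the same type over `D` and
`κ x a ≠ κ x a'`; otherwise one builds an infinite monochromatic clique in `B`. (3) With the help of
automorphisms which fix `D` and map `a'` to `a` one gets a binary tree of partial morphisms whose
branches send `x` to `2^ω` different vertices. -/

namespace Pool.Agent.Results.MP_0b7070_lc.CountablePalette

open Cardinal

universe u w

/-- A graph with edge-colouring: a symmetric map on pairs which takes the pseudocolour `e` exactly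
on the diagonal. -/
structure GEC (V : Type u) (C : Type w) where
  κ : V → V → C
  e : C
  symm : ∀ x y, κ x y = κ y x
  eq_iff : ∀ x y, κ x y = e ↔ x = y

variable {V : Type u} {C : Type w}

/-- The set of the colours used. -/
def GEC.palette (G : GEC V C) : Set C := {c | ∃ x y, x ≠ y ∧ G.κ x y = c}

/-- `f : A → V` is a partial morphism. -/
def GEC.IsPartialMorphism (G : GEC V C) (A : Set V) (f : A → V) : Prop :=
  ∀ x y : A, G.κ (f x) (f y) = G.κ x y

/-- `g` is an automorphism. -/
def GEC.IsAut (G : GEC V C) (g : Equiv.Perm V) : Prop := ∀ x y, G.κ (g x) (g y) = G.κ x y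

/-- Every partial morphism (with finite or infinite domain) extends to an automorphism. -/
def GEC.AbsolutelyHomogeneous (G : GEC V C) : Prop :=
  ∀ (A : Set V) (f : A → V), G.IsPartialMorphism A f → ∃ g, G.IsAut g ∧ ∀ x : A, g x = f x

/-- The statement of Q1 (for cardinals of the universe `u`): for all infinite cardinals
`α < β < 2^α` there is an absolutely homogeneous GEC with palette of cardinality `α` and with
vertex set of cardinality `β`. -/
def Q1Statement : Prop :=
  ∀ α β : Cardinal.{u}, ℵ₀ ≤ α → α < β → β < 2 ^ α →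
    ∃ (V C : Type u) (G : GEC V C), G.AbsolutelyHomogeneous ∧ #G.palette = α ∧ #V = β

section Proof

variable (G : GEC V C)

/-- There is no infinite monochromatic clique. -/
lemma no_clique (hG : G.AbsolutelyHomogeneous) (c : C) (hc : c ≠ G.e) (K : ℕ → V)
    (hK : ∀ i j, i < j → G.κ (K i) (K j) = c) : False := by
  classical
  have hKinj : Function.Injective K := by
    intro i j h
    by_contra hij
    rcases lt_or_gt_of_ne hij with h' | h'
    · exact hc ((hK i j h').symm.trans ((G.eq_iff _ _).2 h))
    · exact hc ((hK j i h').symm.trans ((G.eq_iff _ _).2 h.symm))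
  let S : Set (Set V) := {M | ∀ x ∈ M, ∀ y ∈ M, x ≠ y → G.κ x y = c}
  have hK0 : Set.range K ∈ S := by
    rintro _ ⟨i, rfl⟩ _ ⟨j, rfl⟩ hne
    rcases lt_trichotomy i j with h | h | h
    · exact hK i j h
    · exact absurd (by rw [h]) hne
    · rw [G.symm]
      exact hK j i h
  obtain ⟨M, hKM, hM⟩ := zorn_subset_nonempty S (by
    intro ch hch hchain _
    refine ⟨⋃₀ ch, ?_, fun s hs => Set.subset_sUnion_of_mem hs⟩
    rintro x ⟨A, hA, hxA⟩ y ⟨B, hB, hyB⟩ hne
    rcases hchain.total hA hB with h | h
    · exact hch hB x (h hxA) y hyB hne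
    · exact hch hA x hxA y (h hyB) hne) _ hK0
  have hMS : ∀ x ∈ M, ∀ y ∈ M, x ≠ y → G.κ x y = c := hM.prop
  have hinf : M.Infinite := (Set.infinite_range_of_injective hKinj).mono hKM
  obtain ⟨k, hk⟩ := hinf.nonempty
  have : Infinite M := hinf.to_subtype
  have hinf' : Infinite (M \ {k} : Set V) := (hinf.sdiff (Set.finite_singleton k)).to_subtype
  obtain ⟨φ⟩ : Nonempty (M ≃ (M \ {k} : Set V)) := by
    rw [← Cardinal.eq]
    have h := Cardinal.mk_sdiff_add_mk (Set.singleton_subset_iff.2 hk)
    rw [Cardinal.mk_singleton, Cardinal.add_one_eq (Cardinal.aleph0_le_mk _)] at h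
    exact h.symm
  obtain ⟨g, hg, hgf⟩ := hG M (fun x => (φ x).1) (by
    intro x y
    by_cases hxy : x = y
    · rw [hxy, (G.eq_iff _ _).2 rfl, (G.eq_iff _ _).2 rfl]
    · have h1 : (φ x).1 ≠ (φ y).1 := fun h => hxy (φ.injective (Subtype.ext h))
      rw [hMS _ (φ x).2.1 _ (φ y).2.1 h1, hMS _ x.2 _ y.2 (fun h => hxy (Subtype.ext h))])
  set v := g.symm k with hv
  have hvx : ∀ x ∈ M, G.κ v x = c := by
    intro x hx
    have h1 := hg v x
    rw [hv, g.apply_symm_apply] at h1
    rw [hv, ← h1]
    have h2 : g x = (φ ⟨x, hx⟩).1 := hgf ⟨x, hx⟩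
    rw [h2]
    exact hMS _ hk _ (φ ⟨x, hx⟩).2.1 (fun h => (φ ⟨x, hx⟩).2.2 h.symm)
  have hvM : v ∉ M := fun h => hc ((hvx v h).symm.trans ((G.eq_iff _ _).2 rfl))
  have hins : insert v M ∈ S := by
    rintro x (rfl | hx) y (rfl | hy) hne
    · exact absurd rfl hne
    · exact hvx y hy
    · rw [G.symm]
      exact hvx x hx
    · exact hMS x hx y hy hne
  exact hvM (hM.le_of_ge hins (Set.subset_insert _ _) (Set.mem_insert _ _))

/-- `a` and `b` have the same type over `D`. -/
def Same (D : Set V) (a b : V) : Prop := ∀ d ∈ D, G.κ a d = G.κ b d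

lemma exists_reps (hpal : G.palette.Countable) (D : Finset V) :
    ∃ R : Set V, R.Countable ∧ ∀ v, ∃ v' ∈ R, Same G D v v' := by
  classical
  have hp : (insert G.e G.palette).Countable := hpal.insert _
  have : Countable (insert G.e G.palette : Set C) := hp.to_subtype
  let T : V → (D → (insert G.e G.palette : Set C)) := fun v d => ⟨G.κ v d, by
    by_cases h : v = d
    · exact Or.inl ((G.eq_iff _ _).2 h)
    · exact Or.inr ⟨v, d, h, rfl⟩⟩
  refine ⟨Set.range (fun t : Set.range T => t.2.choose), Set.countable_range _, ?_⟩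
  intro v
  refine ⟨_, ⟨⟨T v, v, rfl⟩, rfl⟩, ?_⟩
  have h : T (⟨T v, v, rfl⟩ : Set.range T).2.choose = T v :=
    (⟨T v, v, rfl⟩ : Set.range T).2.choose_spec
  intro d hd
  have := congrArg Subtype.val (congrFun h ⟨d, hd⟩)
  exact this.symm

lemma countable_finsets {B : Set V} (hB : B.Countable) : {D : Finset V | (D : Set V) ⊆ B}.Countable := by
  have h := Set.countable_ofPred_finite_subset hB
  have h2 : {D : Finset V | (D : Set V) ⊆ B} =
      (fun D : Finset V => (D : Set V)) ⁻¹' {t | t.Finite ∧ t ⊆ B} := by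
    ext D
    simp
  rw [h2]
  exact h.preimage_of_injOn (Finset.coe_injective.injOn)

/-- A countable set which realises all types over its finite subsets. -/
lemma exists_closed (hpal : G.palette.Countable) :
    ∃ B : Set V, B.Countable ∧ ∀ D : Finset V, (D : Set V) ⊆ B → ∀ v, ∃ v' ∈ B, Same G D v v' := by
  classical
  choose R hR1 hR2 using exists_reps G hpal
  let F : Set V → Set V := fun B => B ∪ ⋃ D ∈ {D : Finset V | (D : Set V) ⊆ B}, R D
  let Bn : ℕ → Set V := fun n => F^[n] ∅
  have hs : ∀ n, Bn (n + 1) = F (Bn n) := fun n => Function.iterate_succ_apply' F n ∅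
  have hc : ∀ n, (Bn n).Countable := by
    intro n
    induction n with
    | zero => exact Set.countable_empty
    | succ n ih =>
      rw [hs]
      exact ih.union ((countable_finsets ih).biUnion fun D _ => hR1 D)
  have hm : Monotone Bn := monotone_nat_of_le_succ fun n => by
    rw [hs]
    exact Set.subset_union_left
  refine ⟨⋃ n, Bn n, Set.countable_iUnion hc, ?_⟩
  intro D hD v
  obtain ⟨n, hn⟩ : ∃ n, (D : Set V) ⊆ Bn n := by
    induction D using Finset.induction_on with
    | empty => exact ⟨0, by simp⟩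
    | insert a D _ ih =>
      rw [Finset.coe_insert, Set.insert_subset_iff] at hD
      obtain ⟨n, hn⟩ := ih hD.2
      obtain ⟨m, hm'⟩ := Set.mem_iUnion.1 hD.1
      refine ⟨max n m, ?_⟩
      rw [Finset.coe_insert, Set.insert_subset_iff]
      exact ⟨hm (le_max_right _ _) hm', hn.trans (hm (le_max_left _ _))⟩
  obtain ⟨v', h1, h2⟩ := hR2 D v
  refine ⟨v', Set.mem_iUnion.2 ⟨n + 1, ?_⟩, h2⟩
  rw [hs]
  exact Or.inr (Set.mem_biUnion (s := {D : Finset V | (D : Set V) ⊆ Bn n}) hn h1)

/-- The splitting property. -/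
lemma split (hG : G.AbsolutelyHomogeneous) (B : Set V)
    (hB : ∀ D : Finset V, (D : Set V) ⊆ B → ∀ v, ∃ v' ∈ B, Same G D v v') (x : V) (hx : x ∉ B)
    (D : Finset V) (hD : (D : Set V) ⊆ B) :
    ∃ a ∈ B, ∃ a' ∈ B, Same G D a a' ∧ G.κ x a ≠ G.κ x a' := by
  classical
  by_contra hcon
  push Not at hcon
  have : Nonempty V := ⟨x⟩
  have hB' : ∀ E : Finset V, (E : Set V) ⊆ B → ∃ v' ∈ B, Same G E x v' := fun E hE => hB E hE x
  choose! pick hpick1 hpick2 using hB'
  let F : Finset V → Finset V := fun E => insert (pick E) E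
  let En : ℕ → Finset V := fun n => F^[n] D
  have hs : ∀ n, En (n + 1) = insert (pick (En n)) (En n) :=
    fun n => Function.iterate_succ_apply' F n D
  have hEB : ∀ n, (En n : Set V) ⊆ B := by
    intro n
    induction n with
    | zero => exact hD
    | succ n ih =>
      rw [hs, Finset.coe_insert, Set.insert_subset_iff]
      exact ⟨hpick1 _ ih, ih⟩
  have hm : Monotone En := monotone_nat_of_le_succ fun n => by
    rw [hs]
    exact Finset.subset_insert _ _
  have h0 : ∀ n, D ⊆ En n := fun n => hm (Nat.zero_le n)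
  let K : ℕ → V := fun n => pick (En n)
  have hKB : ∀ n, K n ∈ B := fun n => hpick1 _ (hEB n)
  have hKD : ∀ n, Same G D (K n) (K 0) := by
    intro n d hd
    rw [← hpick2 _ (hEB n) d (h0 n hd), ← hpick2 _ (hEB 0) d (h0 0 hd)]
  have hxK : ∀ n, G.κ x (K n) = G.κ x (K 0) := fun n => hcon _ (hKB n) _ (hKB 0) (hKD n)
  refine no_clique G hG (G.κ x (K 0)) ?_ K ?_
  · intro h
    rw [G.eq_iff] at h
    exact hx (h ▸ hKB 0)
  · intro i j hij
    have hmem : K i ∈ En j := hm (Nat.succ_le_of_lt hij) (by
      rw [hs]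
      exact Finset.mem_insert_self _ _)
    rw [← hxK i, hpick2 _ (hEB j) (K i) hmem, G.symm]

lemma isAut_one : G.IsAut 1 := fun _ _ => rfl

lemma isAut_mul {g h : Equiv.Perm V} (hg : G.IsAut g) (hh : G.IsAut h) : G.IsAut (g * h) := by
  intro x y
  rw [Equiv.Perm.mul_apply, Equiv.Perm.mul_apply, hg, hh]

/-- An automorphism fixing `D` and moving `a'` to `a`. -/
lemma exists_tau (hG : G.AbsolutelyHomogeneous) (D : Finset V) (a a' : V) (h : Same G D a a') :
    ∃ τ, G.IsAut τ ∧ (∀ d ∈ D, τ d = d) ∧ τ a' = a := by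
  classical
  obtain ⟨g, hg, hgf⟩ := hG (insert a' (D : Set V)) (fun v => if v.1 = a' then a else v.1) (by
    rintro ⟨v, hv⟩ ⟨v', hv'⟩
    by_cases h1 : v = a' <;> by_cases h2 : v' = a'
    · simp only [h1, h2, if_true]
      rw [(G.eq_iff _ _).2 rfl, (G.eq_iff _ _).2 rfl]
    · simp only [h1, h2, if_true, if_false]
      have : v' ∈ D := by
        rcases hv' with h' | h'
        · exact absurd h' h2
        · exact h'
      exact h v' this
    · simp only [h1, h2, if_true, if_false]
      have : v ∈ D := by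
        rcases hv with h' | h'
        · exact absurd h' h1
        · exact h'
      rw [G.symm v a, G.symm v a']
      exact h v this
    · simp only [h1, h2, if_false])
  have ha : g a' = a := by
    rw [hgf ⟨a', Set.mem_insert _ _⟩]
    simp
  refine ⟨g, hg, ?_, ha⟩
  intro d hd
  have h3 := hgf ⟨d, Set.mem_insert_of_mem _ hd⟩
  rw [h3]
  simp only
  split_ifs with h4
  · subst h4
    have := h d hd
    rw [(G.eq_iff d d).2 rfl] at this
    exact (G.eq_iff _ _).1 this
  · rfl

/-- An uncountable absolutely homogeneous GEC with countable palette has at least `2^ω` vertices. -/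
theorem injection (hG : G.AbsolutelyHomogeneous) (hpal : G.palette.Countable) [Uncountable V] :
    ∃ y : (ℕ → Bool) → V, Function.Injective y := by
  classical
  obtain ⟨B, hBc, hB⟩ := exists_closed G hpal
  obtain ⟨x, hx⟩ : ∃ x, x ∉ B := by
    by_contra hcon
    push Not at hcon
    exact Set.not_countable_univ (hBc.mono fun v _ => hcon v)
  have : Nonempty V := ⟨x⟩
  have hsp := split G hG B hB x hx
  choose! a ha a' ha' hsame hdiff using hsp
  have hta : ∀ D : Finset V, (D : Set V) ⊆ B →
      ∃ τ, G.IsAut τ ∧ (∀ d ∈ D, τ d = d) ∧ τ (a' D) = a D := fun D hD =>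
    exists_tau G hG D (a D) (a' D) (hsame D hD)
  choose! τ hτ1 hτ2 hτ3 using hta
  let F : Finset V → Finset V := fun D => insert (a D) (insert (a' D) D)
  let Dn : ℕ → Finset V := fun n => F^[n] ∅
  have hs : ∀ n, Dn (n + 1) = insert (a (Dn n)) (insert (a' (Dn n)) (Dn n)) :=
    fun n => Function.iterate_succ_apply' F n ∅
  have hDB : ∀ n, (Dn n : Set V) ⊆ B := by
    intro n
    induction n with
    | zero => simp [Dn]
    | succ n ih =>
      rw [hs, Finset.coe_insert, Finset.coe_insert, Set.insert_subset_iff, Set.insert_subset_iff]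
      exact ⟨ha _ ih, ha' _ ih, ih⟩
  have hm : Monotone Dn := monotone_nat_of_le_succ fun n => by
    rw [hs]
    exact (Finset.subset_insert _ _).trans (Finset.subset_insert _ _)
  -- the automorphisms along a branch
  let g : (ℕ → Bool) → ℕ → Equiv.Perm V := fun s n =>
    Nat.rec 1 (fun n p => if s n then p * τ (Dn n) else p) n
  have hg0 : ∀ s, g s 0 = 1 := fun s => rfl
  have hg1 : ∀ s n, g s (n + 1) = if s n then g s n * τ (Dn n) else g s n := fun s n => rfl
  have hgaut : ∀ s n, G.IsAut (g s n) := by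
    intro s n
    induction n with
    | zero => exact isAut_one G
    | succ n ih =>
      rw [hg1]
      split_ifs
      · exact isAut_mul G ih (hτ1 _ (hDB n))
      · exact ih
  have hstep : ∀ s n, ∀ d ∈ Dn n, g s (n + 1) d = g s n d := by
    intro s n d hd
    rw [hg1]
    split_ifs
    · rw [Equiv.Perm.mul_apply, hτ2 _ (hDB n) d hd]
    · rfl
  have hstab : ∀ s n m, n ≤ m → ∀ d ∈ Dn n, g s m d = g s n d := by
    intro s n m hnm
    induction m, hnm using Nat.le_induction with
    | base => intro d _; rfl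
    | succ m hnm ih =>
      intro d hd
      rw [hstep s m d (hm hnm hd), ih d hd]
  -- the partial morphism of a branch
  have hext : ∀ s, ∃ σ : Equiv.Perm V, G.IsAut σ ∧ ∀ n, ∀ d ∈ Dn n, σ d = g s n d := by
    intro s
    have hmem : ∀ v : (⋃ n, (Dn n : Set V) : Set V), ∃ n, v.1 ∈ Dn n := fun v => by
      obtain ⟨n, hn⟩ := Set.mem_iUnion.1 v.2
      exact ⟨n, hn⟩
    choose N hN using hmem
    obtain ⟨σ, hσ, hσf⟩ := hG (⋃ n, (Dn n : Set V)) (fun v => g s (N v) v.1) (by
      intro v w
      have h1 : g s (N v) v.1 = g s (max (N v) (N w)) v.1 :=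
        (hstab s _ _ (le_max_left _ _) _ (hN v)).symm
      have h2 : g s (N w) w.1 = g s (max (N v) (N w)) w.1 :=
        (hstab s _ _ (le_max_right _ _) _ (hN w)).symm
      simp only
      rw [h1, h2]
      exact hgaut s _ _ _)
    refine ⟨σ, hσ, ?_⟩
    intro n d hd
    have h3 := hσf ⟨d, Set.mem_iUnion.2 ⟨n, hd⟩⟩
    rw [h3]
    simp only
    rcases le_total n (N ⟨d, Set.mem_iUnion.2 ⟨n, hd⟩⟩) with h | h
    · exact hstab s _ _ h d hd
    · exact (hstab s _ _ h d (hN ⟨d, Set.mem_iUnion.2 ⟨n, hd⟩⟩)).symm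
  choose σ hσ1 hσ2 using hext
  refine ⟨fun s => σ s x, ?_⟩
  -- two branches which split at level `n`
  have key : ∀ s s' : ℕ → Bool, ∀ n, g s n = g s' n → s n = false → s' n = true →
      σ s x ≠ σ s' x := by
    intro s s' n hgn h0 h1 heq
    have hd := hdiff (Dn n) (hDB n)
    have hm1 : a (Dn n) ∈ Dn (n + 1) := by rw [hs]; simp
    have hm2 : a' (Dn n) ∈ Dn (n + 1) := by rw [hs]; simp
    have e1 : σ s (a (Dn n)) = g s n (a (Dn n)) := by
      rw [hσ2 s (n + 1) _ hm1, hg1, h0]
      simp
    have e2 : σ s' (a' (Dn n)) = g s n (a (Dn n)) := by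
      rw [hσ2 s' (n + 1) _ hm2, hg1, h1]
      simp only [if_true, Equiv.Perm.mul_apply]
      rw [hτ3 _ (hDB n), hgn]
    have e3 : G.κ x (a (Dn n)) = G.κ x (a' (Dn n)) := by
      rw [← hσ1 s x (a (Dn n)), ← hσ1 s' x (a' (Dn n)), e1, e2, heq]
    exact hd e3
  intro s s' heq
  by_contra hne
  obtain ⟨n, hn⟩ : ∃ n, s n ≠ s' n := by
    by_contra hcon
    push Not at hcon
    exact hne (funext hcon)
  -- first difference
  have hex : ∃ n, s n ≠ s' n := ⟨n, hn⟩
  set m := Nat.find hex with hmdef
  have hm1 : s m ≠ s' m := Nat.find_spec hex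
  have hm2 : ∀ k < m, s k = s' k := fun k hk => by
    by_contra h
    exact Nat.find_min hex hk h
  have hgm : ∀ k ≤ m, g s k = g s' k := by
    intro k hk
    induction k with
    | zero => rfl
    | succ k ih =>
      rw [hg1, hg1, ih (by omega), hm2 k (by omega)]
  rcases hb : s m with _ | _
  · have hb' : s' m = true := by
      rw [hb] at hm1
      simpa using Ne.symm hm1
    exact key s s' m (hgm m le_rfl) hb hb' heq
  · have hb' : s' m = false := by
      rw [hb] at hm1
      simpa using Ne.symm hm1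
    exact key s' s m (hgm m le_rfl).symm hb' hb heq.symm

end Proof

/-- (a) An absolutely homogeneous GEC with countable palette has a countable vertex set or at least
`2^ω` vertices; in particular for no cardinal `β` with `ℵ₀ < β < 2^ℵ₀` is there an absolutely
homogeneous GEC with palette of cardinality `ℵ₀` and vertex set of cardinality `β`.
(b) The statement of Q1 implies the continuum hypothesis; so it fails in every model of ZFC in
which CH fails. -/
theorem result :
    (∀ (V : Type u) (C : Type w) (G : GEC V C), G.AbsolutelyHomogeneous → G.palette.Countable →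
      #V ≤ ℵ₀ ∨ 𝔠 ≤ #V) ∧
    (Q1Statement.{u} → (𝔠 : Cardinal.{u}) = ℵ₁) := by
  have hmain : ∀ (V : Type u) (C : Type w) (G : GEC V C), G.AbsolutelyHomogeneous →
      G.palette.Countable → #V ≤ ℵ₀ ∨ 𝔠 ≤ #V := by
    intro V C G hG hpal
    by_cases hV : Countable V
    · exact Or.inl (Cardinal.mk_le_aleph0_iff.2 hV)
    · right
      have : Uncountable V := not_countable_iff.1 hV
      obtain ⟨y, hy⟩ := injection G hG hpal
      have h := Cardinal.lift_mk_le_lift_mk_of_injective hy
      simpa using h
  have hmain' : ∀ (V : Type u) (C : Type u) (G : GEC V C), G.AbsolutelyHomogeneous →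
      G.palette.Countable → #V ≤ ℵ₀ ∨ 𝔠 ≤ #V := by
    intro V C G hG hpal
    by_cases hV : Countable V
    · exact Or.inl (Cardinal.mk_le_aleph0_iff.2 hV)
    · right
      have : Uncountable V := not_countable_iff.1 hV
      obtain ⟨y, hy⟩ := injection G hG hpal
      have h := Cardinal.lift_mk_le_lift_mk_of_injective hy
      simpa using h
  refine ⟨hmain, ?_⟩
  intro hQ
  by_contra hne
  have hlt : ℵ₁ < (𝔠 : Cardinal.{u}) :=
    lt_of_le_of_ne Cardinal.aleph_one_le_continuum (Ne.symm hne)
  obtain ⟨V, C, G, hG, hp, hV⟩ := hQ ℵ₀ ℵ₁ le_rfl Cardinal.aleph0_lt_aleph_one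
    (by rw [Cardinal.two_power_aleph0]; exact hlt)
  have hpc : G.palette.Countable := Cardinal.le_aleph0_iff_set_countable.1 hp.le
  rcases hmain' V C G hG hpc with h | h
  · rw [hV] at h
    exact absurd h (not_le.2 Cardinal.aleph0_lt_aleph_one)
  · rw [hV] at h
    exact absurd h (not_le.2 hlt)

end Pool.Agent.Results.MP_0b7070_lc.CountablePalette
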